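import Pool.Agent.Lib_helper4.LDK.Defs
import Pool.Agent.Lib_helper33.RC_AlignRed
import Pool.Agent.Lib_helper92.RC.Bridge

/-!
# LDK, block SH1: the two sheets, log det version of pinching + Szegő
-/

set_option autoImplicit false

open scoped BigOperators ComplexOrder Kronecker MatrixOrder Topology
open MeasureTheory Set Matrix Filter

namespace Pool.Agent.LDK

open Pool.Agent.RC

variable {ι κ : Type} [Fintype ι] [DecidableEq ι] [Fintype κ] [DecidableEq κ]

namespace SH1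

/-! ### `ld` and determinants -/

theorem det_re_pos {X : Matrix ι ι ℂ} (h : X.PosDef) : 0 < X.det.re :=
  (Complex.lt_def.mp h.det_pos).1

theorem det_eq_re {X : Matrix ι ι ℂ} (h : X.PosDef) : X.det = ((X.det.re : ℝ) : ℂ) :=
  Complex.ext (by simp) (by simpa using (Complex.lt_def.mp h.det_pos).2.symm)

theorem ld_eq {X : Matrix ι ι ℂ} (h : X.PosDef) : ld X = Real.log X.det.re := by
  unfold ld trF
  rw [dif_pos h.isHermitian, ← Real.log_prod (fun i _ => (h.eigenvalues_pos i).ne'),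
    h.isHermitian.det_eq_prod_eigenvalues]
  congr 1
  have : (∏ i, ((h.isHermitian.eigenvalues i : ℝ) : ℂ)) =
      ((∏ i, h.isHermitian.eigenvalues i : ℝ) : ℂ) := by push_cast; rfl
  rw [show (∏ i, (RCLike.ofReal (h.isHermitian.eigenvalues i) : ℂ)) =
    ((∏ i, h.isHermitian.eigenvalues i : ℝ) : ℂ) from this, Complex.ofReal_re]

theorem ld_of_det {σ τ : Type} [Fintype σ] [DecidableEq σ] [Fintype τ] [DecidableEq τ]
    {X : Matrix σ σ ℂ} {Y : Matrix τ τ ℂ} (hX : X.PosDef) (hY : Y.PosDef)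
    (h : X.det = Y.det) : ld X = ld Y := by
  rw [ld_eq hX, ld_eq hY, h]

theorem ld_of_det_mul {σ τ υ : Type} [Fintype σ] [DecidableEq σ] [Fintype τ] [DecidableEq τ]
    [Fintype υ] [DecidableEq υ] {X : Matrix σ σ ℂ} {Y : Matrix τ τ ℂ} {Z : Matrix υ υ ℂ}
    (hX : X.PosDef) (hY : Y.PosDef) (hZ : Z.PosDef) (h : X.det = Y.det * Z.det) :
    ld X = ld Y + ld Z := by
  rw [ld_eq hX, ld_eq hY, ld_eq hZ, ← Real.log_mul (det_re_pos hY).ne' (det_re_pos hZ).ne', h,
    det_eq_re hY, det_eq_re hZ]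
  norm_cast

/-! ### Schur multiplication by a correlation matrix (Oppenheim) -/

open Pool.Agent.Lib_helper33.Renyi in
theorem hadamard_ds {C X : Matrix ι ι ℂ} (hC : C.PosSemidef) (hd : ∀ i, C i i = 1)
    (hX : X.IsHermitian) : ∃ (U V : Matrix ι ι ℂ) (l μ : ι → ℝ) (P : ι → ι → ℝ),
      Uᴴ * U = 1 ∧ U * Uᴴ = 1 ∧ Vᴴ * V = 1 ∧ V * Vᴴ = 1 ∧
      X = U * diagonal (fun i => (l i : ℂ)) * Uᴴ ∧
      C ⊙ X = V * diagonal (fun i => (μ i : ℂ)) * Vᴴ ∧
      (∀ a m, 0 ≤ P a m) ∧ (∀ a, ∑ m, P a m = 1) ∧ (∀ m, ∑ a, P a m = 1) ∧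
      ∀ a, μ a = ∑ m, P a m * l m := by
  obtain ⟨B, hB⟩ := exists_factor hC
  have hCX : (C ⊙ X).IsHermitian := by
    ext i j
    simp only [conjTranspose_apply, hadamard_apply, star_mul']
    rw [← conjTranspose_apply, ← conjTranspose_apply, hC.isHermitian, hX]
  obtain ⟨U, l, hU, hU', hXU⟩ := Pool.Agent.Lib_helper33.Renyi.exists_diag hX
  obtain ⟨V, μ, hV, hV', hYV⟩ := Pool.Agent.Lib_helper33.Renyi.exists_diag hCX
  set D : ι → Matrix ι ι ℂ := fun k => diagonal (fun j => B k j) with hD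
  have hDsum : C ⊙ X = ∑ k, (D k)ᴴ * X * D k := by
    ext i j
    rw [hadamard_apply, Matrix.sum_apply, hB, Matrix.mul_apply, Finset.sum_mul]
    refine Finset.sum_congr rfl fun k _ => ?_
    rw [hD]
    simp only [diagonal_conjTranspose, mul_diagonal, diagonal_mul, conjTranspose_apply,
      Pi.star_apply]
    ring
  have hC1 : ∀ i, ∑ k, star (B k i) * B k i = 1 := by
    intro i
    have := hd i
    rw [hB, Matrix.mul_apply] at this
    simpa [conjTranspose_apply] using this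
  have hDD : ∑ k, (D k)ᴴ * D k = 1 := by
    ext i j
    rw [Matrix.sum_apply, hD]
    simp only [diagonal_conjTranspose, diagonal_mul_diagonal, diagonal_apply, one_apply,
      Pi.star_apply]
    by_cases hij : i = j
    · subst hij; simpa using hC1 i
    · simp [hij]
  have hDD' : ∑ k, D k * (D k)ᴴ = 1 := by
    rw [← hDD]
    refine Finset.sum_congr rfl fun k _ => ?_
    rw [hD]
    simp only [diagonal_conjTranspose, diagonal_mul_diagonal]
    congr 1
    ext i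
    simp [mul_comm]
  set G : ι → Matrix ι ι ℂ := fun k => Uᴴ * D k * V with hG
  set P : ι → ι → ℝ := fun a m => ∑ k, Complex.normSq (G k m a) with hP
  have hP0 : ∀ a m, 0 ≤ P a m := fun a m => Finset.sum_nonneg fun k _ => Complex.normSq_nonneg _
  have hP1 : ∀ a, ∑ m, P a m = 1 := by
    intro a
    have h1 : ((∑ m, P a m : ℝ) : ℂ) = 1 := by
      have : ((∑ m, P a m : ℝ) : ℂ) = (∑ k, (G k)ᴴ * G k) a a := by
        rw [Matrix.sum_apply, hP]
        simp only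
        rw [Finset.sum_comm]
        push_cast
        refine Finset.sum_congr rfl fun k _ => ?_
        rw [mul_conjTranspose_diag_apply]
        push_cast; rfl
      rw [this]
      have h2 : ∀ k, (G k)ᴴ * G k = Vᴴ * ((D k)ᴴ * D k) * V := by
        intro k
        rw [hG]
        simp only [conjTranspose_mul, conjTranspose_conjTranspose]
        calc Vᴴ * ((D k)ᴴ * U) * (Uᴴ * D k * V) = Vᴴ * (D k)ᴴ * (U * Uᴴ) * D k * V := by
              simp only [Matrix.mul_assoc]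
          _ = _ := by rw [hU']; simp only [Matrix.mul_assoc, Matrix.one_mul]
      rw [Finset.sum_congr rfl (fun k _ => h2 k), ← Finset.sum_mul, ← Finset.mul_sum, hDD,
        Matrix.mul_one, hV, one_apply_eq]
    exact_mod_cast h1
  have hP2 : ∀ m, ∑ a, P a m = 1 := by
    intro m
    have h1 : ((∑ a, P a m : ℝ) : ℂ) = 1 := by
      have : ((∑ a, P a m : ℝ) : ℂ) = (∑ k, G k * (G k)ᴴ) m m := by
        rw [Matrix.sum_apply, hP]
        simp only
        rw [Finset.sum_comm]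
        push_cast
        refine Finset.sum_congr rfl fun k _ => ?_
        rw [Matrix.mul_apply]
        refine Finset.sum_congr rfl fun a _ => ?_
        rw [conjTranspose_apply, Complex.normSq_eq_conj_mul_self, mul_comm]
        rfl
      rw [this]
      have h2 : ∀ k, G k * (G k)ᴴ = Uᴴ * (D k * (D k)ᴴ) * U := by
        intro k
        rw [hG]
        simp only [conjTranspose_mul, conjTranspose_conjTranspose]
        calc Uᴴ * D k * V * (Vᴴ * ((D k)ᴴ * U)) = Uᴴ * D k * (V * Vᴴ) * (D k)ᴴ * U := by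
              simp only [Matrix.mul_assoc]
          _ = _ := by rw [hV']; simp only [Matrix.mul_assoc, Matrix.one_mul]
      rw [Finset.sum_congr rfl (fun k _ => h2 k), ← Finset.sum_mul, ← Finset.mul_sum, hDD',
        Matrix.mul_one, hU, one_apply_eq]
    exact_mod_cast h1
  have hμ : ∀ a, μ a = ∑ m, P a m * l m := by
    intro a
    have h1 : (μ a : ℂ) = (Vᴴ * (C ⊙ X) * V) a a := by
      conv_rhs => rw [hYV]
      have : Vᴴ * (V * diagonal (fun i => (μ i : ℂ)) * Vᴴ) * V =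
          (Vᴴ * V) * diagonal (fun i => (μ i : ℂ)) * (Vᴴ * V) := by
        simp only [Matrix.mul_assoc]
      rw [this, hV, Matrix.one_mul, Matrix.mul_one, diagonal_apply_eq]
    have h2 : Vᴴ * (C ⊙ X) * V = ∑ k, (G k)ᴴ * diagonal (fun i => (l i : ℂ)) * G k := by
      rw [hDsum, Finset.mul_sum, Finset.sum_mul]
      refine Finset.sum_congr rfl fun k _ => ?_
      rw [hXU, hG]
      simp only [conjTranspose_mul, conjTranspose_conjTranspose, Matrix.mul_assoc]
    have h3 : (μ a : ℂ) = ((∑ m, P a m * l m : ℝ) : ℂ) := by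
      rw [h1, h2, Matrix.sum_apply, hP]
      push_cast
      simp only [Finset.sum_mul]
      rw [Finset.sum_comm]
      refine Finset.sum_congr rfl fun k _ => ?_
      rw [Matrix.mul_apply]
      refine Finset.sum_congr rfl fun m _ => ?_
      rw [mul_diagonal, conjTranspose_apply, Complex.normSq_eq_conj_mul_self]
      have : (star (G k m a) : ℂ) = (starRingEnd ℂ) (G k m a) := rfl
      rw [this]
      ring
    exact_mod_cast h3
  exact ⟨U, V, l, μ, P, hU, hU', hV, hV', hXU, hYV, hP0, hP1, hP2, hμ⟩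

theorem posDef_of_diag {V : Matrix ι ι ℂ} {μ : ι → ℝ} (hV' : V * Vᴴ = 1)
    (hμ : ∀ i, 0 < μ i) : (V * diagonal (fun i => (μ i : ℂ)) * Vᴴ).PosDef := by
  have h1 : (diagonal (fun i => (μ i : ℂ))).PosDef := by
    rw [Matrix.posDef_diagonal_iff]
    intro i
    exact_mod_cast hμ i
  refine h1.mul_mul_conjTranspose_same ?_
  intro x y hxy
  have h2 : (x ᵥ* V) ᵥ* Vᴴ = (y ᵥ* V) ᵥ* Vᴴ := congrArg (fun z => z ᵥ* Vᴴ) hxy
  rwa [vecMul_vecMul, vecMul_vecMul, hV', vecMul_one, vecMul_one] at h2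

/-- **Oppenheim's inequality** for correlation matrices. -/
theorem oppenheim {C Y : Matrix ι ι ℂ} (hC : C.PosSemidef) (hd : ∀ i, C i i = 1)
    (hY : Y.PosDef) : (C ⊙ Y).PosDef ∧ ld Y ≤ ld (C ⊙ Y) := by
  obtain ⟨U, V, l, μ, P, hU, hU', hV, hV', hXU, hYV, hP0, hP1, hP2, hμ⟩ :=
    hadamard_ds hC hd hY.isHermitian
  have hl : ∀ i, 0 < l i := by
    have h1 : (diagonal (fun i => (l i : ℂ))).PosDef := by
      have h2 : Uᴴ * Y * U = diagonal (fun i => (l i : ℂ)) := by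
        rw [hXU]
        calc Uᴴ * (U * diagonal (fun i => (l i : ℂ)) * Uᴴ) * U =
            (Uᴴ * U) * diagonal (fun i => (l i : ℂ)) * (Uᴴ * U) := by
              simp only [Matrix.mul_assoc]
          _ = _ := by rw [hU, Matrix.one_mul, Matrix.mul_one]
      rw [← h2]
      refine hY.conjTranspose_mul_mul_same ?_
      intro x y hxy
      have h3 : Uᴴ *ᵥ (U *ᵥ x) = Uᴴ *ᵥ (U *ᵥ y) := congrArg (fun z => Uᴴ *ᵥ z) hxy
      rwa [mulVec_mulVec, mulVec_mulVec, hU, one_mulVec, one_mulVec] at h3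
    rw [Matrix.posDef_diagonal_iff] at h1
    intro i
    exact_mod_cast h1 i
  have hμ0 : ∀ i, 0 < μ i := by
    intro i
    rw [hμ i]
    obtain ⟨m, hm, hm'⟩ : ∃ m ∈ Finset.univ, 0 < P i m := by
      by_contra hcon
      push Not at hcon
      have : ∑ m, P i m ≤ 0 := Finset.sum_nonpos hcon
      rw [hP1 i] at this
      linarith
    exact Finset.sum_pos' (fun j _ => mul_nonneg (hP0 i j) (hl j).le) ⟨m, hm, mul_pos hm' (hl m)⟩
  refine ⟨by rw [hYV]; exact posDef_of_diag hV' hμ0, ?_⟩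
  have e1 : ld Y = ∑ i, Real.log (l i) := by
    rw [hXU]; exact TRF.trF_conj _ hU l
  have e2 : ld (C ⊙ Y) = ∑ i, Real.log (μ i) := by
    rw [hYV]; exact TRF.trF_conj _ hV μ
  rw [e1, e2]
  have h3 : ∀ a, ∑ m, P a m * Real.log (l m) ≤ Real.log (μ a) := by
    intro a
    rw [hμ a]
    have := (strictConcaveOn_log_Ioi.concaveOn).le_map_sum (t := Finset.univ) (w := P a) (p := l)
      (fun i _ => hP0 a i) (hP1 a) (fun i _ => hl i)
    simpa [smul_eq_mul] using this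
  calc ∑ i, Real.log (l i) = ∑ m, (∑ a, P a m) * Real.log (l m) := by simp [hP2]
    _ = ∑ a, ∑ m, P a m * Real.log (l m) := by
        rw [Finset.sum_comm]
        exact Finset.sum_congr rfl fun m _ => by rw [Finset.sum_mul]
    _ ≤ _ := Finset.sum_le_sum fun a _ => h3 a

/-! ### reduction to the Gram matrix -/

theorem core {σ τ : Type} [Fintype σ] [DecidableEq σ] [Fintype τ] [DecidableEq τ]
    {X : Matrix σ σ ℂ} (hX : X.PosDef) (V : Matrix σ τ ℂ) (Nn m : Matrix τ τ ℂ)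
    (hm : IsUnit m.det) (hV : Vᴴ * X⁻¹ * V = m * mᴴ)
    (hM : (X + V * Nn * Vᴴ).PosDef) :
    (1 + mᴴ * Nn * m).PosDef ∧ ld (X + V * Nn * Vᴴ) = ld X + ld (1 + mᴴ * Nn * m) := by
  have hXu : IsUnit X.det := (isUnit_iff_isUnit_det _).mp hX.isUnit
  have hXi : X * X⁻¹ = 1 := mul_nonsing_inv _ hXu
  have hXi' : X⁻¹ * X = 1 := nonsing_inv_mul _ hXu
  have hXh : (X⁻¹)ᴴ = X⁻¹ := hX.isHermitian.inv
  have hmi : m * m⁻¹ = 1 := mul_nonsing_inv _ hm
  have hmi' : m⁻¹ * m = 1 := nonsing_inv_mul _ hm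
  have hmh : mᴴ * (m⁻¹)ᴴ = 1 := by rw [← conjTranspose_mul, hmi', conjTranspose_one]
  set T : Matrix σ τ ℂ := X⁻¹ * V * (m⁻¹)ᴴ with hT
  have hTh : Tᴴ = m⁻¹ * Vᴴ * X⁻¹ := by
    rw [hT, conjTranspose_mul, conjTranspose_mul, conjTranspose_conjTranspose, hXh]
    simp only [Matrix.mul_assoc]
  have hTXT : Tᴴ * X * T = 1 := by
    rw [hTh, hT]
    calc m⁻¹ * Vᴴ * X⁻¹ * X * (X⁻¹ * V * (m⁻¹)ᴴ) =
        m⁻¹ * Vᴴ * (X⁻¹ * X) * X⁻¹ * V * (m⁻¹)ᴴ := by simp only [Matrix.mul_assoc]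
      _ = m⁻¹ * (Vᴴ * X⁻¹ * V) * (m⁻¹)ᴴ := by
          rw [hXi', Matrix.mul_one]; simp only [Matrix.mul_assoc]
      _ = (m⁻¹ * m) * (mᴴ * (m⁻¹)ᴴ) := by rw [hV]; simp only [Matrix.mul_assoc]
      _ = 1 := by rw [hmi', hmh, Matrix.one_mul]
  have hTV : Tᴴ * V = mᴴ := by
    rw [hTh]
    calc m⁻¹ * Vᴴ * X⁻¹ * V = m⁻¹ * (Vᴴ * X⁻¹ * V) := by simp only [Matrix.mul_assoc]
      _ = (m⁻¹ * m) * mᴴ := by rw [hV]; simp only [Matrix.mul_assoc]
      _ = mᴴ := by rw [hmi', Matrix.one_mul]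
  have hVT : Vᴴ * T = m := by
    have := congrArg conjTranspose hTV
    rwa [conjTranspose_mul, conjTranspose_conjTranspose, conjTranspose_conjTranspose] at this
  have hY : Tᴴ * (X + V * Nn * Vᴴ) * T = 1 + mᴴ * Nn * m := by
    rw [Matrix.mul_add, Matrix.add_mul, hTXT]
    congr 1
    calc Tᴴ * (V * Nn * Vᴴ) * T = (Tᴴ * V) * Nn * (Vᴴ * T) := by simp only [Matrix.mul_assoc]
      _ = _ := by rw [hTV, hVT]
  have hYp : (1 + mᴴ * Nn * m).PosDef := by
    rw [← hY]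
    refine hM.conjTranspose_mul_mul_same ?_
    intro x y hxy
    have h2 : (Tᴴ * X) *ᵥ (T *ᵥ x) = (Tᴴ * X) *ᵥ (T *ᵥ y) := congrArg (fun z => (Tᴴ * X) *ᵥ z) hxy
    rwa [mulVec_mulVec, mulVec_mulVec, hTXT, one_mulVec, one_mulVec] at h2
  refine ⟨hYp, ld_of_det_mul hM hX hYp ?_⟩
  have e1 : X + V * Nn * Vᴴ = X * (1 + (X⁻¹ * V) * (Nn * Vᴴ)) := by
    rw [Matrix.mul_add, Matrix.mul_one, ← Matrix.mul_assoc X, ← Matrix.mul_assoc X, hXi,
      Matrix.one_mul]
    simp only [Matrix.mul_assoc]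
  rw [e1, det_mul, det_one_add_mul_comm]
  congr 1
  have e2 : Nn * Vᴴ * (X⁻¹ * V) = (Nn * m) * mᴴ := by
    calc Nn * Vᴴ * (X⁻¹ * V) = Nn * (Vᴴ * X⁻¹ * V) := by simp only [Matrix.mul_assoc]
      _ = _ := by rw [hV]; simp only [Matrix.mul_assoc]
  rw [e2, det_one_add_mul_comm, ← Matrix.mul_assoc]

/-! ### the forms `phi` -/

theorem one_add_posDef {R : Matrix κ κ ℂ} (hR : R.PosDef) {x : ℝ} (hx : 0 ≤ x) :
    ((1 : Matrix κ κ ℂ) + (x : ℂ) • R).PosDef :=
  Matrix.PosDef.one.add_posSemidef (hR.posSemidef.smul (by exact_mod_cast hx))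

theorem phi_eq_form (R : Matrix κ κ ℂ) (v w : κ → ℂ) (x : ℝ) :
    phi R v w x = form ((1 : Matrix κ κ ℂ) + (x : ℂ) • R) v w 0 := by
  unfold phi form Res
  simp

theorem phi_facts {R : Matrix κ κ ℂ} (hR : R.PosDef) {v w : κ → ℂ}
    (h : LinearIndependent ℂ ![v, w]) {x : ℝ} (hx : 0 ≤ x) :
    0 < (phi R v v x).re ∧ 0 < (phi R w w x).re ∧ phi R v v x = ((phi R v v x).re : ℂ) ∧
      phi R w w x = ((phi R w w x).re : ℂ) ∧ phi R w v x = star (phi R v w x) ∧
      Complex.normSq (phi R v w x) < (phi R v v x).re * (phi R w w x).re := by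
  have h1 := form_facts _ (one_add_posDef hR hx) v w 0 le_rfl
  have h2 := form_facts _ (one_add_posDef hR hx) w v 0 le_rfl
  simp only [← phi_eq_form] at h1 h2
  obtain ⟨-, i1, i2, -, i4⟩ := h1
  obtain ⟨-, j1, -, -, -⟩ := h2
  obtain ⟨k1, k2, k3⟩ := i4 h
  refine ⟨k1, k2, Complex.ext (by simp) (by simp [i1]), Complex.ext (by simp) (by simp [j1]), i2,
    ?_⟩
  rwa [Complex.normSq_eq_norm_sq]

open Pool.Agent.Lib_helper33.Renyi in
theorem lp_eq (R : Matrix κ κ ℂ) (v w : κ → ℂ) (x : ℝ) :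
    lp R v w x = lpos (phi R v v x).re (phi R w w x).re (Complex.normSq (phi R v w x)) := by
  unfold lp
  rw [AR.lam_eq]

open Pool.Agent.Lib_helper33.Renyi in
theorem lp_pair {R : Matrix κ κ ℂ} (hR : R.PosDef) {v w : κ → ℂ}
    (h : LinearIndependent ℂ ![v, w]) {x : ℝ} (hx : 0 ≤ x) :
    lp R w v x = lpos (phi R w w x).re (phi R v v x).re (Complex.normSq (phi R v w x)) ∧
      0 < lp R v w x ∧ 0 < lp R w v x := by
  obtain ⟨h1, h2, h3, h4, h5, h6⟩ := phi_facts hR h hx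
  have e1 : lp R w v x = lpos (phi R w w x).re (phi R v v x).re
      (Complex.normSq (phi R v w x)) := by
    rw [lp_eq, h5, Complex.star_def, Complex.normSq_conj]
  have e2 := lpos_mul h6.le
  have e3 := lpos_nonneg h6.le
  have e4 : 0 ≤ lpos (phi R w w x).re (phi R v v x).re (Complex.normSq (phi R v w x)) := by
    refine lpos_nonneg ?_
    rw [mul_comm]; exact h6.le
  rw [lp_eq R v w, e1]
  have e5 : 0 < lpos (phi R v v x).re (phi R w w x).re (Complex.normSq (phi R v w x)) *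
      lpos (phi R w w x).re (phi R v v x).re (Complex.normSq (phi R v w x)) := by
    rw [e2]; linarith
  refine ⟨rfl, lt_of_le_of_ne e3 ?_, lt_of_le_of_ne e4 ?_⟩
  · intro h0
    rw [← h0, zero_mul] at e5
    exact lt_irrefl _ e5
  · intro h0
    rw [← h0, mul_zero] at e5
    exact lt_irrefl _ e5

theorem smul_res {R : Matrix κ κ ℂ} (hR : R.PosDef) {b r : ℝ} (hb : 0 ≤ b) (hr : 0 < r) :
    ((r : ℂ) • (1 : Matrix κ κ ℂ) + (b : ℂ) • R)⁻¹ =
      ((r⁻¹ : ℝ) : ℂ) • ((1 : Matrix κ κ ℂ) + ((b / r : ℝ) : ℂ) • R)⁻¹ := by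
  refine inv_eq_right_inv ?_
  have e1 : (r : ℂ) • (1 : Matrix κ κ ℂ) + (b : ℂ) • R =
      (r : ℂ) • ((1 : Matrix κ κ ℂ) + ((b / r : ℝ) : ℂ) • R) := by
    rw [smul_add, smul_smul]
    congr 2
    rw [← Complex.ofReal_mul, mul_div_cancel₀ _ hr.ne']
  have hp := one_add_posDef hR (div_nonneg hb hr.le)
  have hu : IsUnit ((1 : Matrix κ κ ℂ) + ((b / r : ℝ) : ℂ) • R).det :=
    (isUnit_iff_isUnit_det _).mp hp.isUnit
  rw [e1, Matrix.smul_mul, Matrix.mul_smul, smul_smul, mul_nonsing_inv _ hu,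
    ← Complex.ofReal_mul, mul_inv_cancel₀ hr.ne', Complex.ofReal_one, one_smul]

/-- the 2x2 matrices of the sheets -/
theorem exists_m {R : Matrix κ κ ℂ} (hR : R.PosDef) {v w : κ → ℂ}
    (h : LinearIndependent ℂ ![v, w]) {b r : ℝ} (hb : 0 ≤ b) (hr : 0 < r) :
    ∃ m : Matrix (Fin 2) (Fin 2) ℂ,
      m * mᴴ = !![star v ⬝ᵥ (((r : ℂ) • (1 : Matrix κ κ ℂ) + (b : ℂ) • R)⁻¹ *ᵥ v),
          star v ⬝ᵥ (((r : ℂ) • (1 : Matrix κ κ ℂ) + (b : ℂ) • R)⁻¹ *ᵥ w);
          star w ⬝ᵥ (((r : ℂ) • (1 : Matrix κ κ ℂ) + (b : ℂ) • R)⁻¹ *ᵥ v),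
          star w ⬝ᵥ (((r : ℂ) • (1 : Matrix κ κ ℂ) + (b : ℂ) • R)⁻¹ *ᵥ w)] ∧
      mᴴ * Pool.Agent.Lib_helper33.Renyi.J2 * m =
        !![((r⁻¹ * lp R v w (b / r) : ℝ) : ℂ), 0; 0, -((r⁻¹ * lp R w v (b / r) : ℝ) : ℂ)] := by
  have hx : 0 ≤ b / r := div_nonneg hb hr.le
  have hri : 0 < r⁻¹ := inv_pos.mpr hr
  obtain ⟨h1, h2, h3, h4, h5, h6⟩ := phi_facts hR h hx
  have e : ∀ x y : κ → ℂ, star x ⬝ᵥ (((r : ℂ) • (1 : Matrix κ κ ℂ) + (b : ℂ) • R)⁻¹ *ᵥ y) =
      ((r⁻¹ : ℝ) : ℂ) * phi R x y (b / r) := by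
    intro x y
    rw [smul_res hR hb hr, smul_mulVec, dotProduct_smul, smul_eq_mul]
    rfl
  have hns : Complex.normSq (((r⁻¹ : ℝ) : ℂ) * phi R v w (b / r)) =
      (r⁻¹) ^ 2 * Complex.normSq (phi R v w (b / r)) := by
    rw [Complex.normSq_mul, Complex.normSq_ofReal, ← pow_two]
  obtain ⟨m, hm1, hm2⟩ := Pool.Agent.Lib_helper33.Renyi.exists_m2
    (r⁻¹ * (phi R v v (b / r)).re) (r⁻¹ * (phi R w w (b / r)).re)
    (((r⁻¹ : ℝ) : ℂ) * phi R v w (b / r)) (by positivity) (by positivity) (by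
      rw [hns]
      have := mul_le_mul_of_nonneg_left h6.le (sq_nonneg (r⁻¹))
      calc r⁻¹ ^ 2 * Complex.normSq (phi R v w (b / r)) ≤
          r⁻¹ ^ 2 * ((phi R v v (b / r)).re * (phi R w w (b / r)).re) := this
        _ = _ := by ring)
  refine ⟨m, ?_, ?_⟩
  · rw [hm1, e, e, e, e, h5, map_mul, Complex.conj_ofReal, Complex.ofReal_mul,
      Complex.ofReal_mul, ← h3, ← h4]
    rfl
  · rw [hm2, hns, AR.lpos_scale hri, AR.lpos_scale hri, ← (lp_pair hR h hx).1, ← lp_eq]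

/-! ### block diagonal matrices on `ι × κ` -/

/-- block diagonal matrix -/
def bd (F : ι → Matrix κ κ ℂ) : Matrix (ι × κ) (ι × κ) ℂ :=
  Matrix.of fun p q => if p.1 = q.1 then F p.1 p.2 q.2 else 0

theorem bd_mul (F G : ι → Matrix κ κ ℂ) : bd F * bd G = bd fun j => F j * G j := by
  ext ⟨j, i⟩ ⟨k, l⟩
  simp only [bd, Matrix.mul_apply, Matrix.of_apply, Fintype.sum_prod_type]
  rw [Finset.sum_eq_single j]
  · by_cases hjk : j = k
    · subst hjk; simp
    · simp [hjk]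
  · intro a _ ha
    simp [ha.symm]
  · intro h; exact absurd (Finset.mem_univ _) h

theorem bd_one : bd (fun _ : ι => (1 : Matrix κ κ ℂ)) = 1 := by
  ext ⟨j, i⟩ ⟨k, l⟩
  simp only [bd, Matrix.of_apply, Matrix.one_apply, Prod.mk.injEq]
  by_cases hjk : j = k <;> simp [hjk]

theorem bd_eq (R : Matrix κ κ ℂ) (b : ι → ℝ) (r : ℝ) :
    (r : ℂ) • (1 : Matrix (ι × κ) (ι × κ) ℂ) + dg b ⊗ₖ R =
      bd fun j => (r : ℂ) • (1 : Matrix κ κ ℂ) + (b j : ℂ) • R := by
  ext ⟨j, i⟩ ⟨k, l⟩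
  simp only [bd, Matrix.of_apply, Matrix.one_apply, Prod.mk.injEq, Matrix.add_apply,
    Matrix.smul_apply, kroneckerMap_apply, dg, diagonal_apply, smul_eq_mul]
  by_cases hjk : j = k
  · subst hjk
    by_cases hil : i = l <;> simp [hil]
  · simp [hjk]

theorem bd_inv (F : ι → Matrix κ κ ℂ) (hF : ∀ j, IsUnit (F j).det) :
    (bd F)⁻¹ = bd fun j => (F j)⁻¹ := by
  refine inv_eq_right_inv ?_
  rw [bd_mul, ← bd_one]
  congr 1
  ext1 j
  exact mul_nonsing_inv _ (hF j)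

/-- the columns of a vector -/
def cv (ι : Type) [DecidableEq ι] {κ : Type} (x : κ → ℂ) : Matrix (ι × κ) ι ℂ :=
  Matrix.of fun p k => if p.1 = k then x p.2 else 0

theorem cv_bd_cv (x y : κ → ℂ) (F : ι → Matrix κ κ ℂ) :
    (cv ι x)ᴴ * bd F * cv ι y = diagonal fun j => star x ⬝ᵥ (F j *ᵥ y) := by
  ext j k
  rw [diagonal_apply, Matrix.mul_apply, Fintype.sum_prod_type]
  have e1 : ∀ a l, ((cv ι x)ᴴ * bd F) j (a, l) =
      if j = a then ∑ i, star (x i) * F j i l else 0 := by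
    intro a l
    rw [Matrix.mul_apply, Fintype.sum_prod_type, Finset.sum_eq_single j]
    · simp only [cv, bd, conjTranspose_apply, Matrix.of_apply, if_true]
      by_cases hja : j = a
      · simp [hja]
      · simp [hja]
    · intro c _ hc
      simp [cv, hc]
    · intro h; exact absurd (Finset.mem_univ _) h
  simp only [e1]
  rw [Finset.sum_eq_single j]
  · by_cases hjk : j = k
    · subst hjk
      simp only [cv, Matrix.of_apply, if_true, dotProduct, mulVec, Pi.star_apply]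
      simp only [Finset.sum_mul, Finset.mul_sum]
      rw [Finset.sum_comm]
      refine Finset.sum_congr rfl fun i _ => Finset.sum_congr rfl fun l _ => ?_
      ring
    · simp [cv, hjk]
  · intro a _ ha
    simp [ha.symm]
  · intro h; exact absurd (Finset.mem_univ _) h

theorem cv_mul_cv (x : κ → ℂ) (N : Matrix ι ι ℂ) :
    cv ι x * N * (cv ι x)ᴴ = N ⊗ₖ vecMulVec x (star x) := by
  ext ⟨j, i⟩ ⟨k, l⟩
  rw [Matrix.mul_apply]
  have e1 : ∀ a, (cv ι x * N) (j, i) a = x i * N j a := by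
    intro a
    rw [Matrix.mul_apply, Finset.sum_eq_single j]
    · simp [cv]
    · intro c _ hc
      simp [cv, hc.symm]
    · intro h; exact absurd (Finset.mem_univ _) h
  simp only [e1]
  rw [Finset.sum_eq_single k]
  · simp only [cv, conjTranspose_apply, Matrix.of_apply, if_true, kroneckerMap_apply,
      vecMulVec_apply, Pi.star_apply]
    ring
  · intro a _ ha
    simp [cv, ha.symm]
  · intro h; exact absurd (Finset.mem_univ _) h

/-! ### conjugation by `diag √λ` -/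

open Pool.Agent.Lib_helper33.Renyi in
theorem ld_sand {l : ι → ℝ} (hl : ∀ j, 0 < l j) {N : Matrix ι ι ℂ}
    (h : (1 + sand l N).PosDef) : (dg (fun j => (l j)⁻¹) + N).PosDef ∧
      ld (1 + sand l N) = ld (dg (fun j => (l j)⁻¹) + N) - ld (dg fun j => (l j)⁻¹) := by
  set S : Matrix ι ι ℂ := diagonal (fun j => ((Real.sqrt (l j) : ℝ) : ℂ)) with hS
  set S' : Matrix ι ι ℂ := diagonal (fun j => (((Real.sqrt (l j))⁻¹ : ℝ) : ℂ)) with hS'
  have hs : ∀ j, Real.sqrt (l j) ≠ 0 := fun j => (Real.sqrt_pos.mpr (hl j)).ne'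
  have h1 : S * S' = 1 := by
    rw [hS, hS', diagonal_mul_diagonal, ← diagonal_one]
    congr 1
    ext j
    rw [← Complex.ofReal_mul, mul_inv_cancel₀ (hs j), Complex.ofReal_one]
  have h2 : S' * S = 1 := by
    rw [hS, hS', diagonal_mul_diagonal, ← diagonal_one]
    congr 1
    ext j
    rw [← Complex.ofReal_mul, inv_mul_cancel₀ (hs j), Complex.ofReal_one]
  have hSh : S'ᴴ = S' := by
    rw [hS', diagonal_conjTranspose]
    congr 1
    ext j
    simp only [Pi.star_apply]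
    exact Complex.conj_ofReal _
  have hSS : S' * S' = dg fun j => (l j)⁻¹ := by
    rw [hS', diagonal_mul_diagonal]
    unfold dg
    congr 1
    ext j
    rw [← Complex.ofReal_mul, ← mul_inv, Real.mul_self_sqrt (hl j).le]
  have e1 : S' * (1 + sand l N) * S' = dg (fun j => (l j)⁻¹) + N := by
    rw [sand_eq, ← hS, Matrix.mul_add, Matrix.add_mul, Matrix.mul_one, hSS]
    congr 1
    calc S' * (S * N * S) * S' = (S' * S) * N * (S * S') := by simp only [Matrix.mul_assoc]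
      _ = N := by rw [h1, h2, Matrix.one_mul, Matrix.mul_one]
  have hD : (dg fun j => (l j)⁻¹).PosDef := by
    unfold dg
    rw [Matrix.posDef_diagonal_iff]
    intro j
    have := inv_pos.mpr (hl j)
    exact_mod_cast this
  have hP : (dg (fun j => (l j)⁻¹) + N).PosDef := by
    rw [← e1]
    have h3 : (S'ᴴ * (1 + sand l N) * S').PosDef := by
      refine h.conjTranspose_mul_mul_same ?_
      intro x y hxy
      have h4 : S *ᵥ (S' *ᵥ x) = S *ᵥ (S' *ᵥ y) := congrArg (fun z => S *ᵥ z) hxy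
      rwa [mulVec_mulVec, mulVec_mulVec, h1, one_mulVec, one_mulVec] at h4
    rwa [hSh] at h3
  refine ⟨hP, ?_⟩
  have e2 : ld (dg (fun j => (l j)⁻¹) + N) = ld (1 + sand l N) + ld (dg fun j => (l j)⁻¹) := by
    refine ld_of_det_mul hP h hD ?_
    rw [← e1, ← hSS, det_mul, det_mul, det_mul]
    ring
  rw [e2]; ring

open Pool.Agent.Lib_helper33.Renyi in
theorem sand_neg (l : ι → ℝ) (N : Matrix ι ι ℂ) : -(sand l N) = sand l (-N) := by
  ext i j
  simp only [sand, Matrix.of_apply, Matrix.neg_apply]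
  ring

/-! ### the diagonal case -/

open Pool.Agent.Lib_helper33.Renyi in
theorem diag_case {R : Matrix κ κ ℂ} (hR : R.PosDef) {v w : κ → ℂ}
    (h : LinearIndependent ℂ ![v, w]) {b : ι → ℝ} (hb : ∀ j, 0 ≤ b j) {N : Matrix ι ι ℂ}
    {r : ℝ} (hr : 0 < r)
    (hM : ((r : ℂ) • (1 : Matrix (ι × κ) (ι × κ) ℂ) + dg b ⊗ₖ R +
      N ⊗ₖ (vecMulVec v (star v) - vecMulVec w (star w))).PosDef) :
    (dg (fun j => (r⁻¹ * lp R v w (b j / r))⁻¹) + N).PosDef ∧
    (dg (fun j => (r⁻¹ * lp R w v (b j / r))⁻¹) - N).PosDef ∧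
    ld ((r : ℂ) • (1 : Matrix (ι × κ) (ι × κ) ℂ) + dg b ⊗ₖ R +
      N ⊗ₖ (vecMulVec v (star v) - vecMulVec w (star w))) ≤
      ld ((r : ℂ) • (1 : Matrix (ι × κ) (ι × κ) ℂ) + dg b ⊗ₖ R) +
      (ld (dg (fun j => (r⁻¹ * lp R v w (b j / r))⁻¹) + N) -
        ld (dg (fun j => (r⁻¹ * lp R v w (b j / r))⁻¹))) +
      (ld (dg (fun j => (r⁻¹ * lp R w v (b j / r))⁻¹) - N) -
        ld (dg (fun j => (r⁻¹ * lp R w v (b j / r))⁻¹))) := by
  -- the block matrices
  have hF : ∀ j, ((r : ℂ) • (1 : Matrix κ κ ℂ) + (b j : ℂ) • R).PosDef := by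
    intro j
    refine (Matrix.PosDef.one.smul (by exact_mod_cast hr)).add_posSemidef
      (hR.posSemidef.smul (by exact_mod_cast hb j))
  have hFu : ∀ j, IsUnit ((r : ℂ) • (1 : Matrix κ κ ℂ) + (b j : ℂ) • R).det := fun j =>
    (isUnit_iff_isUnit_det _).mp (hF j).isUnit
  have hX : ((r : ℂ) • (1 : Matrix (ι × κ) (ι × κ) ℂ) + dg b ⊗ₖ R).PosDef := by
    refine (Matrix.PosDef.one.smul (by exact_mod_cast hr)).add_posSemidef ?_
    refine Matrix.PosSemidef.kronecker ?_ hR.posSemidef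
    unfold dg
    rw [posSemidef_diagonal_iff]
    intro j
    exact_mod_cast hb j
  set X : Matrix (ι × κ) (ι × κ) ℂ := (r : ℂ) • (1 : Matrix (ι × κ) (ι × κ) ℂ) + dg b ⊗ₖ R
    with hXdef
  have hXbd : X = bd fun j => (r : ℂ) • (1 : Matrix κ κ ℂ) + (b j : ℂ) • R := bd_eq R b r
  have hXinv : X⁻¹ = bd fun j => ((r : ℂ) • (1 : Matrix κ κ ℂ) + (b j : ℂ) • R)⁻¹ := by
    rw [hXbd, bd_inv _ hFu]
  set l1 : ι → ℝ := fun j => r⁻¹ * lp R v w (b j / r) with hl1
  set l2 : ι → ℝ := fun j => r⁻¹ * lp R w v (b j / r) with hl2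
  have hl1p : ∀ j, 0 < l1 j := fun j =>
    mul_pos (inv_pos.mpr hr) (lp_pair hR h (div_nonneg (hb j) hr.le)).2.1
  have hl2p : ∀ j, 0 < l2 j := fun j =>
    mul_pos (inv_pos.mpr hr) (lp_pair hR h (div_nonneg (hb j) hr.le)).2.2
  choose m hm1 hm2 using fun j => exists_m hR h (hb j) hr
  set V : Matrix (ι × κ) (ι ⊕ ι) ℂ := fromCols (cv ι v) (cv ι w) with hV
  set Nn : Matrix (ι ⊕ ι) (ι ⊕ ι) ℂ := fromBlocks N 0 0 (-N) with hNn
  set M : Matrix (ι ⊕ ι) (ι ⊕ ι) ℂ := fromBlocks (diagonal fun j => m j 0 0)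
    (diagonal fun j => m j 0 1) (diagonal fun j => m j 1 0) (diagonal fun j => m j 1 1) with hMdef
  have hVh : Vᴴ = fromRows (cv ι v)ᴴ (cv ι w)ᴴ := by
    rw [hV, conjTranspose_fromCols_eq_fromRows_conjTranspose]
  have hVNV : V * Nn * Vᴴ = N ⊗ₖ (vecMulVec v (star v) - vecMulVec w (star w)) := by
    rw [hVh, hV, hNn, fromCols_mul_fromBlocks, fromCols_mul_fromRows]
    simp only [Matrix.mul_zero, zero_add, add_zero, Matrix.mul_neg, Matrix.neg_mul]
    rw [cv_mul_cv, cv_mul_cv, ← sub_eq_add_neg]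
    ext ⟨j, i⟩ ⟨k, l⟩
    simp only [Matrix.sub_apply, kroneckerMap_apply]
    ring
  have hGram : Vᴴ * X⁻¹ * V = M * Mᴴ := by
    rw [hXinv, hVh, hV, fromRows_mul, fromRows_mul_fromCols, cv_bd_cv, cv_bd_cv, cv_bd_cv,
      cv_bd_cv, hMdef, fromBlocks_conjTranspose, fromBlocks_multiply]
    simp only [diagonal_conjTranspose, diagonal_mul_diagonal, diagonal_add]
    have hmm : ∀ j (a c : Fin 2), m j a 0 * star (m j c 0) + m j a 1 * star (m j c 1) =
        (m j * (m j)ᴴ) a c := by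
      intro j a c
      simp only [Matrix.mul_apply, Fin.sum_univ_two, conjTranspose_apply]
    congr 1
    · congr 1
      ext j
      simp only [Pi.star_apply]
      rw [hmm j 0 0, hm1 j]; simp
    · congr 1
      ext j
      simp only [Pi.star_apply]
      rw [hmm j 0 1, hm1 j]; simp
    · congr 1
      ext j
      simp only [Pi.star_apply]
      rw [hmm j 1 0, hm1 j]; simp
    · congr 1
      ext j
      simp only [Pi.star_apply]
      rw [hmm j 1 1, hm1 j]; simp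
  -- invariants of the blocks
  have hmJ : ∀ j, (starRingEnd ℂ) (m j 0 0) * m j 0 0 - (starRingEnd ℂ) (m j 1 0) * m j 1 0 =
      (l1 j : ℂ) ∧
      (starRingEnd ℂ) (m j 0 0) * m j 0 1 - (starRingEnd ℂ) (m j 1 0) * m j 1 1 = 0 ∧
      (starRingEnd ℂ) (m j 0 1) * m j 0 0 - (starRingEnd ℂ) (m j 1 1) * m j 1 0 = 0 ∧
      (starRingEnd ℂ) (m j 1 1) * m j 1 1 - (starRingEnd ℂ) (m j 0 1) * m j 0 1 =
      (l2 j : ℂ) := by
    intro j
    have h00 := congrFun (congrFun (hm2 j) 0) 0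
    have h01 := congrFun (congrFun (hm2 j) 0) 1
    have h10 := congrFun (congrFun (hm2 j) 1) 0
    have h11 := congrFun (congrFun (hm2 j) 1) 1
    simp only [J2, Matrix.mul_apply, Fin.sum_univ_two, conjTranspose_apply] at h00 h01 h10 h11
    simp at h00 h01 h10 h11
    refine ⟨?_, ?_, ?_, ?_⟩
    · simp only [hl1]; push_cast; linear_combination h00
    · linear_combination h01
    · linear_combination h10
    · simp only [hl2]; push_cast; linear_combination -h11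
  have hx : ∀ j, Complex.normSq (m j 0 0) - Complex.normSq (m j 1 0) = l1 j := by
    intro j
    have h2 := (hmJ j).1
    rw [← Complex.normSq_eq_conj_mul_self, ← Complex.normSq_eq_conj_mul_self] at h2
    exact_mod_cast h2
  have hy : ∀ j, Complex.normSq (m j 1 1) - Complex.normSq (m j 0 1) = l2 j := by
    intro j
    have h2 := (hmJ j).2.2.2
    rw [← Complex.normSq_eq_conj_mul_self, ← Complex.normSq_eq_conj_mul_self] at h2
    exact_mod_cast h2
  -- `M` is invertible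
  have hMu : IsUnit M.det := by
    have e1 : Mᴴ * fromBlocks 1 0 0 (-1) * M =
        fromBlocks (dg l1) 0 0 (-(dg l2)) := by
      rw [hMdef, fromBlocks_conjTranspose, fromBlocks_multiply, fromBlocks_multiply]
      simp only [diagonal_conjTranspose, Matrix.mul_one, Matrix.mul_zero, add_zero, zero_add,
        Matrix.mul_neg, Matrix.neg_mul, diagonal_mul_diagonal]
      congr 1
      · ext j k
        by_cases hjk : j = k
        · subst hjk
          simp only [Matrix.add_apply, Matrix.neg_apply, diagonal_apply_eq, Pi.star_apply, dg,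
            Complex.star_def]
          linear_combination (hmJ j).1
        · simp [dg, hjk]
      · ext j k
        by_cases hjk : j = k
        · subst hjk
          simp only [Matrix.add_apply, Matrix.neg_apply, diagonal_apply_eq, Pi.star_apply,
            Complex.star_def, Matrix.zero_apply]
          linear_combination (hmJ j).2.1
        · simp [hjk]
      · ext j k
        by_cases hjk : j = k
        · subst hjk
          simp only [Matrix.add_apply, Matrix.neg_apply, diagonal_apply_eq, Pi.star_apply,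
            Complex.star_def, Matrix.zero_apply]
          linear_combination (hmJ j).2.2.1
        · simp [hjk]
      · ext j k
        by_cases hjk : j = k
        · subst hjk
          simp only [Matrix.add_apply, Matrix.neg_apply, diagonal_apply_eq, Pi.star_apply, dg,
            Complex.star_def]
          linear_combination -(hmJ j).2.2.2
        · simp [dg, hjk]
    have e2 := congrArg det e1
    rw [det_mul, det_fromBlocks_zero₂₁, det_neg] at e2
    unfold dg at e2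
    rw [det_diagonal, det_diagonal] at e2
    rw [isUnit_iff_ne_zero]
    intro h0
    rw [h0, mul_zero] at e2
    have h1 : (∏ i, ((l1 i : ℝ) : ℂ)) ≠ 0 :=
      Finset.prod_ne_zero_iff.mpr fun i _ => by exact_mod_cast (hl1p i).ne'
    have h2 : (∏ i, ((l2 i : ℝ) : ℂ)) ≠ 0 :=
      Finset.prod_ne_zero_iff.mpr fun i _ => by exact_mod_cast (hl2p i).ne'
    have h3 : (-1 : ℂ) ^ Fintype.card ι ≠ 0 := pow_ne_zero _ (by norm_num)
    exact (mul_ne_zero h1 (mul_ne_zero h3 h2)) e2.symm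
  -- core
  rw [← hVNV] at hM ⊢
  obtain ⟨hY, hld⟩ := core hX V Nn M hMu hGram hM
  -- the correlation matrix
  set C1 := szego (fun j => m j 0 0) (fun j => m j 1 0) l1 with hC1
  set C2 := szego (fun j => m j 1 1) (fun j => m j 0 1) l2 with hC2
  obtain ⟨B1, hB1⟩ := exists_factor (szego_posSemidef _ _ _ hx)
  obtain ⟨B2, hB2⟩ := exists_factor (szego_posSemidef _ _ _ hy)
  rw [← hC1] at hB1
  rw [← hC2] at hB2
  set C : Matrix (ι ⊕ ι) (ι ⊕ ι) ℂ := fromBlocks C1 0 0 C2 with hC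
  have hCp : C.PosSemidef := by
    have : C = (fromBlocks B1 0 0 B2)ᴴ * (fromBlocks B1 0 0 B2) := by
      rw [fromBlocks_conjTranspose, fromBlocks_multiply, hC, hB1, hB2]
      simp
    rw [this]
    exact posSemidef_conjTranspose_mul_self _
  have hCd : ∀ e, C e e = 1 := by
    rintro (j | j)
    · rw [hC, fromBlocks_apply₁₁]; exact szego_diag _ _ _ hx j
    · rw [hC, fromBlocks_apply₂₂]; exact szego_diag _ _ _ hy j
  have e2 : C ⊙ (Mᴴ * Nn * M) = fromBlocks (sand l1 N) 0 0 (-(sand l2 N)) := by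
    rw [hMdef, hNn, fromBlocks_conjTranspose, fromBlocks_multiply, fromBlocks_multiply]
    ext e e'
    rcases e with j | j <;> rcases e' with k | k
    · rw [hadamard_apply, hC, fromBlocks_apply₁₁, fromBlocks_apply₁₁, fromBlocks_apply₁₁]
      have h1 := szego_mul _ _ _ (fun j => (hl1p j).le) hx j k
      rw [← hC1] at h1
      simp only [Matrix.add_apply, diagonal_conjTranspose, diagonal_mul, mul_diagonal,
        Matrix.mul_zero, add_zero, zero_add, Matrix.mul_neg, Matrix.neg_mul,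
        Matrix.neg_apply, Pi.star_apply, sand, Matrix.of_apply]
      rw [← h1]
      simp only [Complex.star_def]
      ring
    · rw [hadamard_apply, hC, fromBlocks_apply₁₂, fromBlocks_apply₁₂]
      simp
    · rw [hadamard_apply, hC, fromBlocks_apply₂₁, fromBlocks_apply₂₁]
      simp
    · rw [hadamard_apply, hC, fromBlocks_apply₂₂, fromBlocks_apply₂₂, fromBlocks_apply₂₂]
      have h1 := szego_mul _ _ _ (fun j => (hl2p j).le) hy j k
      rw [← hC2] at h1
      simp only [Matrix.add_apply, diagonal_conjTranspose, diagonal_mul, mul_diagonal,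
        Matrix.mul_zero, add_zero, zero_add, Matrix.mul_neg, Matrix.neg_mul,
        Matrix.neg_apply, Pi.star_apply, sand, Matrix.of_apply]
      rw [← h1]
      simp only [Complex.star_def]
      ring
  have e3 : C ⊙ (1 + Mᴴ * Nn * M) = fromBlocks (1 + sand l1 N) 0 0 (1 + sand l2 (-N)) := by
    have e4 : C ⊙ (1 : Matrix (ι ⊕ ι) (ι ⊕ ι) ℂ) = 1 := by
      ext e e'
      rw [hadamard_apply, Matrix.one_apply]
      by_cases hee : e = e'
      · subst hee; simp [hCd]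
      · simp [hee]
    rw [hadamard_add, e4, e2, ← fromBlocks_one, fromBlocks_add, sand_neg]
    simp
  obtain ⟨hCY, hop⟩ := oppenheim hCp hCd hY
  rw [e3] at hCY hop
  have hA1 : (1 + sand l1 N).PosDef := by
    have e5 : (fromBlocks (1 + sand l1 N) 0 0 (1 + sand l2 (-N))).submatrix
        (Sum.inl : ι → ι ⊕ ι) Sum.inl = 1 + sand l1 N := by
      ext i j; rfl
    rw [← e5]
    exact hCY.submatrix Sum.inl_injective
  have hA2 : (1 + sand l2 (-N)).PosDef := by
    have e5 : (fromBlocks (1 + sand l1 N) 0 0 (1 + sand l2 (-N))).submatrix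
        (Sum.inr : ι → ι ⊕ ι) Sum.inr = 1 + sand l2 (-N) := by
      ext i j; rfl
    rw [← e5]
    exact hCY.submatrix Sum.inr_injective
  have hld2 : ld (fromBlocks (1 + sand l1 N) 0 0 (1 + sand l2 (-N))) =
      ld (1 + sand l1 N) + ld (1 + sand l2 (-N)) :=
    ld_of_det_mul hCY hA1 hA2 (det_fromBlocks_zero₂₁ _ _ _)
  obtain ⟨q1, q2⟩ := ld_sand hl1p hA1
  obtain ⟨q3, q4⟩ := ld_sand hl2p hA2
  rw [← sub_eq_add_neg] at q3 q4
  refine ⟨q1, q3, ?_⟩
  rw [hld]
  rw [hld2, q2, q4] at hop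
  linarith

theorem ld_conj {σ : Type} [Fintype σ] [DecidableEq σ] {W M : Matrix σ σ ℂ}
    (hW' : W * Wᴴ = 1) (hM : M.PosDef) :
    (W * M * Wᴴ).PosDef ∧ ld (W * M * Wᴴ) = ld M := by
  have hP : (W * M * Wᴴ).PosDef := by
    refine hM.mul_mul_conjTranspose_same ?_
    intro x y hxy
    have h2 : (x ᵥ* W) ᵥ* Wᴴ = (y ᵥ* W) ᵥ* Wᴴ := congrArg (fun z => z ᵥ* Wᴴ) hxy
    rwa [vecMul_vecMul, vecMul_vecMul, hW', vecMul_one, vecMul_one] at h2
  refine ⟨hP, ld_of_det hP hM ?_⟩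
  rw [det_mul, det_mul, mul_right_comm, ← det_mul, hW', det_one, one_mul]

theorem unconj {σ : Type} [Fintype σ] [DecidableEq σ] {W M : Matrix σ σ ℂ}
    (hW : Wᴴ * W = 1) (hM : (W * M * Wᴴ).PosDef) : M.PosDef := by
  have h := (ld_conj (W := Wᴴ) (by rwa [conjTranspose_conjTranspose]) hM).1
  have e : Wᴴ * (W * M * Wᴴ) * Wᴴᴴ = M := by
    rw [conjTranspose_conjTranspose]
    calc Wᴴ * (W * M * Wᴴ) * W = (Wᴴ * W) * M * (Wᴴ * W) := by simp only [Matrix.mul_assoc]
      _ = M := by rw [hW, Matrix.one_mul, Matrix.mul_one]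
  rwa [e] at h

end SH1

open SH1

theorem sh_logdet (R : Matrix κ κ ℂ) (hR : R.PosDef) (v w : κ → ℂ)
    (h : LinearIndependent ℂ ![v, w]) (B N : Matrix ι ι ℂ) (hB : B.PosSemidef)
    (hN : N.IsHermitian) {r : ℝ} (hr : 0 < r)
    (hM : (Mr R (vecMulVec v (star v) - vecMulVec w (star w)) r B N).PosDef) :
    ld (Mr R (vecMulVec v (star v) - vecMulVec w (star w)) r B N) ≤
      ld ((r : ℂ) • (1 : Matrix (ι × κ) (ι × κ) ℂ) + B ⊗ₖ R) +
      (ld (hm (psi R v w) r B + N) - ld (hm (psi R v w) r B)) +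
      (ld (hm (psi R w v) r B - N) - ld (hm (psi R w v) r B)) := by
  set E := vecMulVec v (star v) - vecMulVec w (star w) with hE
  -- diagonalise `B`
  obtain ⟨U, b, hU, hU', hb, hBU⟩ : ∃ (U : Matrix ι ι ℂ) (b : ι → ℝ), Uᴴ * U = 1 ∧ U * Uᴴ = 1 ∧
      (∀ j, 0 ≤ b j) ∧ B = U * dg b * Uᴴ := by
    obtain ⟨U, h1, h2, h3⟩ := SER.exists_diag_eig hB.isHermitian
    refine ⟨U, hB.isHermitian.eigenvalues, h2, h1, hB.eigenvalues_nonneg, ?_⟩
    unfold dg
    rw [← h3]
    calc B = (U * Uᴴ) * B * (U * Uᴴ) := by rw [h1, Matrix.one_mul, Matrix.mul_one]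
      _ = _ := by simp only [Matrix.mul_assoc]
  set N' : Matrix ι ι ℂ := Uᴴ * N * U with hN'
  have hNU : N = U * N' * Uᴴ := by
    rw [hN']
    calc N = (U * Uᴴ) * N * (U * Uᴴ) := by rw [hU', Matrix.one_mul, Matrix.mul_one]
      _ = _ := by simp only [Matrix.mul_assoc]
  set W : Matrix (ι × κ) (ι × κ) ℂ := U ⊗ₖ (1 : Matrix κ κ ℂ) with hW
  have hWW : Wᴴ * W = 1 := by
    rw [hW, conjTranspose_kronecker, ← mul_kronecker_mul, hU, conjTranspose_one, Matrix.one_mul,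
      one_kronecker_one]
  have hWW' : W * Wᴴ = 1 := by
    rw [hW, conjTranspose_kronecker, ← mul_kronecker_mul, hU', conjTranspose_one, Matrix.one_mul,
      one_kronecker_one]
  have hk : ∀ (Z : Matrix ι ι ℂ) (T : Matrix κ κ ℂ),
      W * (Z ⊗ₖ T) * Wᴴ = (U * Z * Uᴴ) ⊗ₖ T := by
    intro Z T
    rw [hW, conjTranspose_kronecker, ← mul_kronecker_mul, ← mul_kronecker_mul,
      conjTranspose_one, Matrix.one_mul, Matrix.mul_one]
  have h1r : W * ((r : ℂ) • (1 : Matrix (ι × κ) (ι × κ) ℂ)) * Wᴴ = (r : ℂ) • 1 := by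
    rw [Matrix.mul_smul, Matrix.smul_mul, Matrix.mul_one, hWW']
  have e1 : Mr R E r B N =
      W * ((r : ℂ) • (1 : Matrix (ι × κ) (ι × κ) ℂ) + dg b ⊗ₖ R + N' ⊗ₖ E) * Wᴴ := by
    rw [Matrix.mul_add, Matrix.add_mul, Matrix.mul_add, Matrix.add_mul, h1r, hk, hk, ← hBU,
      ← hNU]
    rfl
  have e2 : (r : ℂ) • (1 : Matrix (ι × κ) (ι × κ) ℂ) + B ⊗ₖ R =
      W * ((r : ℂ) • (1 : Matrix (ι × κ) (ι × κ) ℂ) + dg b ⊗ₖ R) * Wᴴ := by
    rw [Matrix.mul_add, Matrix.add_mul, h1r, hk, ← hBU]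
  have hpsi : ∀ (x y : κ → ℂ), hm (psi R x y) r B =
      U * dg (fun j => (r⁻¹ * lp R x y (b j / r))⁻¹) * Uᴴ := by
    intro x y
    unfold hm
    rw [hBU]
    unfold dg
    rw [Pool.Agent.Lib_helper98.Renyi.cfc_conj_diagonal _ U hU b]
    congr 3
    ext j
    have e6 : r * psi R x y (b j / r) = (r⁻¹ * lp R x y (b j / r))⁻¹ := by
      rw [mul_inv, inv_inv]; rfl
    exact congrArg Complex.ofReal e6
  have hM' : ((r : ℂ) • (1 : Matrix (ι × κ) (ι × κ) ℂ) + dg b ⊗ₖ R + N' ⊗ₖ E).PosDef := by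
    rw [e1] at hM
    exact unconj hWW hM
  obtain ⟨k1, k2, k3⟩ := diag_case hR h hb hr hM'
  have hX : ((r : ℂ) • (1 : Matrix (ι × κ) (ι × κ) ℂ) + dg b ⊗ₖ R).PosDef := by
    refine (Matrix.PosDef.one.smul (by exact_mod_cast hr)).add_posSemidef ?_
    refine Matrix.PosSemidef.kronecker ?_ hR.posSemidef
    unfold dg
    rw [posSemidef_diagonal_iff]
    intro j
    exact_mod_cast hb j
  have hDp : (dg (fun j => (r⁻¹ * lp R v w (b j / r))⁻¹)).PosDef := by
    unfold dg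
    rw [Matrix.posDef_diagonal_iff]
    intro j
    have := inv_pos.mpr (mul_pos (inv_pos.mpr hr)
      (lp_pair hR h (div_nonneg (hb j) hr.le)).2.1)
    exact_mod_cast this
  have hDm : (dg (fun j => (r⁻¹ * lp R w v (b j / r))⁻¹)).PosDef := by
    unfold dg
    rw [Matrix.posDef_diagonal_iff]
    intro j
    have := inv_pos.mpr (mul_pos (inv_pos.mpr hr)
      (lp_pair hR h (div_nonneg (hb j) hr.le)).2.2)
    exact_mod_cast this
  have e3 : hm (psi R v w) r B + N =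
      U * (dg (fun j => (r⁻¹ * lp R v w (b j / r))⁻¹) + N') * Uᴴ := by
    rw [Matrix.mul_add, Matrix.add_mul, ← hpsi, ← hNU]
  have e4 : hm (psi R w v) r B - N =
      U * (dg (fun j => (r⁻¹ * lp R w v (b j / r))⁻¹) - N') * Uᴴ := by
    rw [Matrix.mul_sub, Matrix.sub_mul, ← hpsi, ← hNU]
  rw [e1, e2, e3, e4, hpsi, hpsi, (ld_conj hWW' hM').2, (ld_conj hWW' hX).2,
    (ld_conj hU' k1).2, (ld_conj hU' k2).2, (ld_conj hU' hDp).2, (ld_conj hU' hDm).2]
  exact k3

theorem sh_scalar (R : Matrix κ κ ℂ) (hR : R.PosDef) (v w : κ → ℂ)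
    (h : LinearIndependent ℂ ![v, w]) {b n r : ℝ} (hb : 0 ≤ b) (hr : 0 < r)
    (hM : ((r : ℂ) • (1 : Matrix κ κ ℂ) + (b : ℂ) • R +
      (n : ℂ) • (vecMulVec v (star v) - vecMulVec w (star w))).PosDef) :
    0 < r * psi R v w (b / r) + n ∧ 0 < r * psi R w v (b / r) - n ∧
    ld ((r : ℂ) • (1 : Matrix κ κ ℂ) + (b : ℂ) • R +
      (n : ℂ) • (vecMulVec v (star v) - vecMulVec w (star w))) =
      ld ((r : ℂ) • (1 : Matrix κ κ ℂ) + (b : ℂ) • R) +
      (Real.log (r * psi R v w (b / r) + n) - Real.log (r * psi R v w (b / r))) +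
      (Real.log (r * psi R w v (b / r) - n) - Real.log (r * psi R w v (b / r))) := by
  have hX : ((r : ℂ) • (1 : Matrix κ κ ℂ) + (b : ℂ) • R).PosDef :=
    (Matrix.PosDef.one.smul (by exact_mod_cast hr)).add_posSemidef
      (hR.posSemidef.smul (by exact_mod_cast hb))
  obtain ⟨m, hm1, hm2⟩ := exists_m hR h hb hr
  obtain ⟨-, hp1, hp2⟩ := lp_pair hR h (div_nonneg hb hr.le)
  set l1 : ℝ := r⁻¹ * lp R v w (b / r) with hl1
  set l2 : ℝ := r⁻¹ * lp R w v (b / r) with hl2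
  have hl1p : 0 < l1 := mul_pos (inv_pos.mpr hr) hp1
  have hl2p : 0 < l2 := mul_pos (inv_pos.mpr hr) hp2
  set V : Matrix κ (Fin 2) ℂ := Matrix.of fun i e => ![v i, w i] e with hV
  set J := Pool.Agent.Lib_helper33.Renyi.J2 with hJ
  have hVNV : V * ((n : ℂ) • J) * Vᴴ =
      (n : ℂ) • (vecMulVec v (star v) - vecMulVec w (star w)) := by
    ext i k
    simp only [hV, hJ, Pool.Agent.Lib_helper33.Renyi.J2, Matrix.mul_apply, Fin.sum_univ_two,
      conjTranspose_apply, Matrix.of_apply, Matrix.smul_apply, Matrix.sub_apply, vecMulVec_apply,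
      Pi.star_apply, smul_eq_mul]
    simp
    ring
  have hGram : Vᴴ * ((r : ℂ) • (1 : Matrix κ κ ℂ) + (b : ℂ) • R)⁻¹ * V = m * mᴴ := by
    rw [hm1]
    have e : ∀ (e e' : Fin 2), (Vᴴ * ((r : ℂ) • (1 : Matrix κ κ ℂ) + (b : ℂ) • R)⁻¹ * V) e e' =
        star (fun i => V i e) ⬝ᵥ (((r : ℂ) • (1 : Matrix κ κ ℂ) + (b : ℂ) • R)⁻¹ *ᵥ
          (fun i => V i e')) := by
      intro e e'
      rw [Matrix.mul_assoc, Matrix.mul_apply]
      rfl
    ext e1 e2
    rw [e]
    fin_cases e1 <;> fin_cases e2 <;> rfl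
  have hdetm : IsUnit m.det := by
    have e2 := congrArg det hm2
    rw [det_mul, det_mul, det_fin_two_of] at e2
    rw [isUnit_iff_ne_zero]
    intro h0
    rw [h0, mul_zero] at e2
    have h1 : ((l1 : ℝ) : ℂ) ≠ 0 := by exact_mod_cast hl1p.ne'
    have h2 : ((l2 : ℝ) : ℂ) ≠ 0 := by exact_mod_cast hl2p.ne'
    simp at e2
    rcases e2 with e2 | e2
    · exact h1 (by exact_mod_cast e2)
    · exact h2 (by exact_mod_cast e2)
  rw [← hVNV] at hM ⊢
  obtain ⟨hY, hld⟩ := core hX V ((n : ℂ) • J) m hdetm hGram hM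
  have hYe : (1 : Matrix (Fin 2) (Fin 2) ℂ) + mᴴ * ((n : ℂ) • J) * m =
      diagonal ![((1 + n * l1 : ℝ) : ℂ), ((1 - n * l2 : ℝ) : ℂ)] := by
    rw [Matrix.mul_smul, Matrix.smul_mul, hm2]
    ext e1 e2
    fin_cases e1 <;> fin_cases e2 <;> simp
    ring
  rw [hYe] at hY hld
  have hpos := (Matrix.posDef_diagonal_iff.mp hY)
  have hq1 : 0 < 1 + n * l1 := by
    have := hpos 0
    simp only [Matrix.cons_val_zero] at this
    exact_mod_cast this
  have hq2 : 0 < 1 - n * l2 := by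
    have := hpos 1
    simp only [Matrix.cons_val_one, Matrix.cons_val_zero] at this
    exact_mod_cast this
  have hr1 : r * psi R v w (b / r) = l1⁻¹ := by
    rw [hl1, mul_inv, inv_inv]; rfl
  have hr2 : r * psi R w v (b / r) = l2⁻¹ := by
    rw [hl2, mul_inv, inv_inv]; rfl
  have ha1 : l1⁻¹ + n = (1 + n * l1) * l1⁻¹ := by field_simp
  have ha2 : l2⁻¹ - n = (1 - n * l2) * l2⁻¹ := by field_simp
  have hi1 : 0 < l1⁻¹ := inv_pos.mpr hl1p
  have hi2 : 0 < l2⁻¹ := inv_pos.mpr hl2p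
  rw [hr1, hr2, ha1, ha2]
  refine ⟨mul_pos hq1 hi1, mul_pos hq2 hi2, ?_⟩
  rw [hld, ld_eq hY, det_diagonal, Fin.prod_univ_two]
  simp only [Matrix.cons_val_zero, Matrix.cons_val_one]
  rw [← Complex.ofReal_mul, Complex.ofReal_re, Real.log_mul hq1.ne' hq2.ne',
    Real.log_mul hq1.ne' hi1.ne', Real.log_mul hq2.ne' hi2.ne']
  ring

end Pool.Agent.LDK
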